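import Pool.Agent.MP_249f74_an.H40.Uni
import Pool.Agent.MP_249f74_an.H65.Abs

/-!
The exchange of the two points near a tangency, and invariance of factors.
-/

namespace Pool.Agent.MP_249f74_an.H40

open PowerSeries

section Tay

variable {k B : Type} [CommRing k] [CommRing B] [Algebra k B] [Algebra ℚ B]

lemma ps_ext {f g : B⟦X⟧} {n : ℕ}
    (h : coeff n (derivative B f) = coeff n (derivative B g)) :
    coeff (n + 1) f = coeff (n + 1) g := by
  rw [coeff_derivative, coeff_derivative, ← Nat.cast_succ] at h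
  exact (unit_nat (Nat.succ_ne_zero n)).mul_right_cancel h

/-- The Taylor series along a derivation. -/
noncomputable def tf (D : Derivation k B B) (a : B) : B⟦X⟧ :=
  mk fun n => algebraMap ℚ B (n.factorial : ℚ)⁻¹ * D^[n] a

lemma fac_succ (n : ℕ) : algebraMap ℚ B ((n + 1).factorial : ℚ)⁻¹ * ((n : B) + 1) =
    algebraMap ℚ B (n.factorial : ℚ)⁻¹ := by
  rw [← Nat.cast_succ, ← map_natCast (algebraMap ℚ B), ← map_mul, Nat.factorial_succ]
  congr 1
  push_cast
  field_simp

lemma tf_der (D : Derivation k B B) (a : B) : derivative B (tf D a) = tf D (D a) := by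
  ext n
  rw [coeff_derivative, tf, tf, coeff_mk, coeff_mk, mul_right_comm, fac_succ,
    Function.iterate_succ_apply]

lemma tf_zero (D : Derivation k B B) (a : B) : coeff 0 (tf D a) = a := by simp [tf]

lemma tf_one (D : Derivation k B B) (a : B) : coeff 1 (tf D a) = D a := by simp [tf]

lemma tf_add (D : Derivation k B B) (a b : B) : tf D (a + b) = tf D a + tf D b := by
  ext n
  simp [tf, iterate_map_add, mul_add]

lemma tf_mul (D : Derivation k B B) (a b : B) : tf D (a * b) = tf D a * tf D b := by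
  ext n
  induction n generalizing a b with
  | zero => simp [tf]
  | succ n ih =>
    refine ps_ext ?_
    rw [tf_der, D.leibniz, Derivation.leibniz, tf_der, tf_der, tf_add, map_add, map_add,
      smul_eq_mul, smul_eq_mul, smul_eq_mul, smul_eq_mul, ih, ih]

/-- The Taylor homomorphism. -/
noncomputable def tay (D : Derivation k B B) : B →+* B⟦X⟧ where
  toFun := tf D
  map_one' := by
    ext (_ | n)
    · simp [tf]
    · simp [tf, coeff_one]
  map_mul' := tf_mul D
  map_zero' := by ext n; simp [tf]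
  map_add' := tf_add D

/-- The height along the flow, divided by the time. -/
noncomputable def ht (D : Derivation k B B) (g : B) : B⟦X⟧ :=
  mk fun n => -(algebraMap ℚ B ((n + 1).factorial : ℚ)⁻¹ * D^[n] g)

lemma ht_der (D : Derivation k B B) (g : B) : derivative B (X * ht D g) = -tf D g := by
  ext n
  rw [coeff_derivative, coeff_succ_X_mul, ht, coeff_mk, map_neg, tf, coeff_mk, neg_mul,
    mul_right_comm, fac_succ]

/-- Line functions are functions of the height. -/
lemma sq_exp {D : Derivation k B B} {g : B} (N : ℕ) : ∀ {s : ℕ → B}, H65.Sq D g s →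
    X ^ N ∣ tf D (s 0) - ∑ j ∈ Finset.range N,
      C (algebraMap ℚ B (j.factorial : ℚ)⁻¹ * s j) * (X * ht D g) ^ j := by
  induction N with
  | zero => simp
  | succ N ih =>
    intro s h
    have h1 := (ih h.tail).mul_left (-tf D g)
    rw [X_pow_dvd_iff] at h1 ⊢
    rintro (_ | m) hm
    · simp [Finset.sum_range_succ', tf]
    · rw [← map_zero (coeff (R := B) (m + 1))]
      refine ps_ext ?_
      rw [map_zero, map_zero, ← h1 m (by omega), map_sub, tf_der, h 0, Finset.sum_range_succ',
        map_add, map_sum, tf_mul, mul_sub, Finset.mul_sum]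
      congr 2
      · exact congrArg (· * _) (map_neg (tay D) g)
      · rw [pow_zero, mul_one, derivative_C, add_zero]
        refine Finset.sum_congr rfl fun j _ => ?_
        rw [Derivation.leibniz, derivative_C, Derivation.leibniz_pow, ht_der, ← fac_succ j]
        simp only [smul_eq_mul, nsmul_eq_mul, map_mul, map_add, map_natCast, map_one,
          Nat.add_one_sub_one]
        push_cast
        ring

variable {A : Type} [CommRing A]

/-- Evaluation of power series at a nilpotent element. -/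
noncomputable def evn (j : B →+* A) {τ : A} {N : ℕ} (h : τ ^ N = 0) : B⟦X⟧ →+* A where
  toFun f := (trunc (N + 2) f).eval₂ j τ
  map_one' := by simp
  map_mul' f g := by
    obtain ⟨y, hy⟩ : Polynomial.X ^ (N + 2) ∣
        trunc (N + 2) (f * g) - trunc (N + 2) f * trunc (N + 2) g :=
      Polynomial.X_pow_dvd_iff.2 fun d hd => by
        rw [Polynomial.coeff_sub, coeff_trunc, if_pos hd,
          coeff_mul_eq_coeff_trunc_mul_trunc f g hd, ← Polynomial.coe_mul, Polynomial.coeff_coe,
          sub_self]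
    rw [← Polynomial.eval₂_mul, ← sub_eq_zero, ← Polynomial.eval₂_sub, hy, Polynomial.eval₂_mul,
      Polynomial.eval₂_X_pow, pow_add, h, zero_mul, zero_mul]
  map_zero' := by simp
  map_add' f g := by simp [Polynomial.eval₂_add]

omit [Algebra ℚ B] in
lemma evn_C (j : B →+* A) {τ : A} {N : ℕ} (h : τ ^ N = 0) (a : B) : evn j h (C a) = j a := by
  simp [evn]

omit [Algebra ℚ B] in
lemma evn_X (j : B →+* A) {τ : A} {N : ℕ} (h : τ ^ N = 0) : evn j h X = τ := by simp [evn]

omit [Algebra ℚ B] in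
lemma evn_two (j : B →+* A) {τ : A} {N : ℕ} (h : τ ^ N = 0) (f : B⟦X⟧) :
    ∃ z, evn j h f = j (coeff 0 f) + τ * (j (coeff 1 f) + τ * z) := by
  refine ⟨evn j h (mk fun n => coeff (n + 1 + 1) f), ?_⟩
  conv_lhs => rw [eq_X_mul_shift_add_const f, eq_X_mul_shift_add_const (mk fun n => _)]
  simp only [map_add, map_mul, evn_X, evn_C, coeff_mk, ← coeff_zero_eq_constantCoeff_apply]
  ring

/-- The exchange of the two points. -/
theorem exists_swap (D : Derivation k B B) {g : B} (j : B →+* A) {N : ℕ} (hN : j g ^ N = 0)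
    (hu : IsUnit (j (D g))) : ∃ σ : B →+* A, (∀ a, j g ∣ σ a - j a) ∧ j g ^ 2 ∣ σ g + j g ∧
      ∀ s, H65.Sq D g s → σ (s 0) = j (s 0) := by
  set pol := (trunc (N + 2) (ht D g)).map j with hp
  have c0 : pol.coeff 0 = -j g := by simp [hp, coeff_trunc, ht]
  have c1 : pol.coeff 1 = -(j (algebraMap ℚ B 2⁻¹) * j (D g)) := by simp [hp, coeff_trunc, ht]
  have u1 : IsUnit (pol.coeff 1) := by
    rw [c1]
    exact ((((IsUnit.mk0 (2⁻¹ : ℚ) (by norm_num)).map _).map j).mul hu).neg
  obtain ⟨τ, ⟨t1, t2⟩, -⟩ := Polynomial.existsUnique_nilpotent_sub_and_aeval_eq_zero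
    (P := pol) (x := (0 : A))
    (by rw [← Polynomial.coeff_zero_eq_aeval_zero, c0]; exact IsNilpotent.neg ⟨N, hN⟩)
    (by rw [← Polynomial.coeff_zero_eq_aeval_zero, Polynomial.coeff_derivative]; simpa using u1)
  rw [Polynomial.coe_aeval_eq_eval] at t2
  have t3 : τ * (pol.coeff 1 + τ * pol.divX.divX.eval τ) = j g := by
    have e1 := congrArg (Polynomial.eval τ) pol.divX_mul_X_add
    have e2 := congrArg (Polynomial.eval τ) pol.divX.divX_mul_X_add
    simp only [Polynomial.eval_add, Polynomial.eval_mul, Polynomial.eval_X, Polynomial.eval_C,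
      Polynomial.coeff_divX, t2, c0, zero_add] at e1 e2
    linear_combination e1 + τ * e2
  have t4 : j g ∣ τ := by
    have hn : IsNilpotent (τ * pol.divX.divX.eval τ) :=
      (Commute.all _ _).isNilpotent_mul_right (by simpa using t1)
    rw [← t3]
    exact (hn.isUnit_add_left_of_commute u1 (Commute.all _ _)).mul_right_dvd.2 dvd_rfl
  have hτ : τ ^ N = 0 := by
    obtain ⟨y, hy⟩ := t4
    rw [hy, mul_pow, hN, zero_mul]
  have t5 : evn j hτ (ht D g) = 0 := by
    rw [hp, Polynomial.eval_map] at t2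
    exact t2
  refine ⟨(evn j hτ).comp (tay D), fun a => ?_, ?_, fun s hs => ?_⟩
  · obtain ⟨z, hz⟩ := evn_two j hτ (tf D a)
    change _ ∣ evn j hτ (tf D a) - _
    rw [hz, tf_zero, add_sub_cancel_left]
    exact t4.mul_right _
  · obtain ⟨z, hz⟩ := evn_two j hτ (tf D g)
    change _ ∣ evn j hτ (tf D g) + _
    have h2 : j (algebraMap ℚ B 2⁻¹) * 2 = 1 := by
      rw [← map_ofNat j 2, ← map_ofNat (algebraMap ℚ B) 2, ← map_mul, ← map_mul]; simp
    refine (pow_dvd_pow_of_dvd t4 2).trans ⟨z + 2 * pol.divX.divX.eval τ, ?_⟩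
    rw [hz, tf_zero, tf_one]
    rw [c1] at t3
    linear_combination (-2) * t3 - τ * j (D g) * h2
  · obtain ⟨y, hy⟩ := sq_exp (N + 1) hs
    have h1 := congrArg (evn j hτ) hy
    rw [Finset.sum_range_succ'] at h1
    simp only [map_sub, map_add, map_mul, map_pow, map_sum, evn_X, evn_C, t5, pow_succ, hτ,
      mul_zero, zero_mul, Finset.sum_const_zero] at h1
    change evn j hτ (tf D (s 0)) = _
    simpa [sub_eq_zero] using h1

end Tay

section Main

variable {k B : Type} [CommRing k] [CommRing B] [Algebra k B] [Algebra ℚ B]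
  (p : Ideal B) [p.IsPrime] (g : B) (N : ℕ)

/-- The thickened local ring. -/
abbrev Thk : Type :=
  Localization.AtPrime p ⧸ Ideal.span {algebraMap B (Localization.AtPrime p) g ^ N}

/-- The map to the thickened local ring. -/
noncomputable def jm : B →+* Thk p g N :=
  (Ideal.Quotient.mk _).comp (algebraMap B (Localization.AtPrime p))

omit [Algebra ℚ B]

lemma jm_pow : jm p g N g ^ N = 0 := by
  rw [jm, RingHom.comp_apply, ← map_pow, Ideal.Quotient.eq_zero_iff_mem]
  exact Ideal.mem_span_singleton_self _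

lemma jm_unit {s : B} (hs : s ∉ p) : IsUnit (jm p g N s) :=
  (IsLocalization.map_units (Localization.AtPrime p) (⟨s, hs⟩ : p.primeCompl)).map
    (Ideal.Quotient.mk _)

lemma jm_ext (φ : B →+* Thk p g N) (h : ∀ a, jm p g N g ∣ φ a - jm p g N a) :
    ∃ ψ : Thk p g N →+* Thk p g N, (∀ a, ψ (jm p g N a) = φ a) ∧ ∀ x, jm p g N g ∣ ψ x - x := by
  have hu : ∀ s : p.primeCompl, IsUnit (φ s) := fun s => by
    obtain ⟨c, hc⟩ := h s
    rw [sub_eq_iff_eq_add] at hc
    rw [hc]
    exact ((Commute.all _ _).isNilpotent_mul_right ⟨N, jm_pow p g N⟩).isUnit_add_right_of_commute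
      (jm_unit p g N s.2) (Commute.all _ _)
  let ψ : Thk p g N →+* Thk p g N := Ideal.Quotient.lift _ (IsLocalization.lift hu) fun a ha => by
    obtain ⟨c, rfl⟩ := Ideal.mem_span_singleton'.1 ha
    obtain ⟨y, hy⟩ : jm p g N g ∣ φ g := by simpa using (h g).add dvd_rfl
    rw [map_mul, map_pow, IsLocalization.lift_eq, hy, mul_pow, jm_pow]; simp
  have h1 : ∀ a, ψ (jm p g N a) = φ a := fun a =>
    (Ideal.Quotient.lift_mk _ _ _).trans (IsLocalization.lift_eq hu a)
  refine ⟨ψ, h1, fun x => ?_⟩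
  have h2 : (Ideal.Quotient.mk (Ideal.span {jm p g N g})).comp ψ = Ideal.Quotient.mk _ :=
    Ideal.Quotient.ringHom_ext (IsLocalization.ringHom_ext p.primeCompl (RingHom.ext fun a =>
      Ideal.Quotient.eq.2 (Ideal.mem_span_singleton.2 (by
        have := h a
        rw [← h1] at this
        exact this))))
  exact Ideal.mem_span_singleton.1 (Ideal.Quotient.eq.1 (RingHom.congr_fun h2 x))

variable {p g}

/-- A factor of an invariant product of even functions is locally invariant. -/
theorem ug_abs [Algebra ℚ B] [IsNoetherianRing B] {D : Derivation k B B} (hg : g ∈ p)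
    (hD : D g ∉ p) (R : B →+* B) (hR : ∀ a, g ∣ R a - a) (Rg : R g = -g) {s t : ℕ → B}
    (hs : H65.Sq D g s) (ht : H65.Sq D g t) (inv : R (s 0 * t 0) = s 0 * t 0)
    (hc : ∀ x, s 0 ∣ x * t 0 → s 0 ∣ x) : ∃ c ∉ p, s 0 ∣ c * R (s 0) := by
  have loc : ∀ (x : B), algebraMap B (Localization.AtPrime p) (s 0) ∣ algebraMap B _ x →
      ∃ c ∉ p, s 0 ∣ c * x := fun x ⟨y, hy⟩ => by
    obtain ⟨⟨a, b⟩, rfl⟩ := IsLocalization.mk'_surjective p.primeCompl y
    rw [IsLocalization.mul_mk'_eq_mk'_of_mul, IsLocalization.eq_mk'_iff_mul_eq, ← map_mul,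
      IsLocalization.eq_iff_exists p.primeCompl] at hy
    obtain ⟨c, hc⟩ := hy
    exact ⟨c * b, (c * b).2, c * a, by linear_combination hc⟩
  obtain ⟨r, hr⟩ := artin (P := algebraMap B (Localization.AtPrime p) (s 0))
    (Q := algebraMap B _ (t 0)) (algebraMap B _ g) fun x hx => by
      obtain ⟨⟨a, b⟩, rfl⟩ := IsLocalization.mk'_surjective p.primeCompl x
      have h1 := hx.mul_right (algebraMap B _ b)
      rw [mul_right_comm, IsLocalization.mk'_spec, ← map_mul] at h1
      obtain ⟨c, c1, c2⟩ := loc _ h1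
      have h2 := map_dvd (algebraMap B (Localization.AtPrime p)) (hc _ (by rwa [← mul_assoc] at c2))
      rw [map_mul, ← IsLocalization.mk'_spec _ a b, ← mul_assoc, mul_comm, ← mul_assoc,
        ← map_mul] at h2
      exact (IsLocalization.map_units _ (b * ⟨c, c1⟩ : p.primeCompl)).dvd_mul_left.1 h2
  refine loc _ (Ideal.mem_span_singleton.1 (krull (g := algebraMap B _ g) (fun hu =>
    (IsLocalization.AtPrime.isUnit_to_map_iff _ p g).1 hu hg) fun M => ?_))
  rw [← Ideal.span_insert]
  set N := M * (r + 1) with hN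
  have down : ∀ (n : ℕ) (x : Localization.AtPrime p), n ≤ N →
      Ideal.Quotient.mk _ x ∈ Ideal.span {jm p g N (s 0), jm p g N g ^ n} →
      x ∈ Ideal.span {algebraMap B _ (s 0), algebraMap B _ g ^ n} := fun n x hn hx => by
    obtain ⟨a, b, hx⟩ := Ideal.mem_span_pair.1 hx
    obtain ⟨a, rfl⟩ := Ideal.Quotient.mk_surjective a
    obtain ⟨b, rfl⟩ := Ideal.Quotient.mk_surjective b
    simp only [jm, RingHom.comp_apply, ← map_pow, ← map_mul, ← map_add, Ideal.Quotient.eq] at hx
    obtain ⟨c, hc⟩ := Ideal.mem_span_singleton'.1 hx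
    obtain ⟨d, hd⟩ := Nat.exists_eq_add_of_le hn
    refine Ideal.mem_span_pair.2 ⟨a, b - c * algebraMap B _ g ^ d, ?_⟩
    rw [hd] at hc
    simp only [map_pow] at hc
    linear_combination -hc
  obtain ⟨σ0, s1, s2, s3⟩ := exists_swap D (jm p g N) (jm_pow p g N) (jm_unit p g N hD)
  obtain ⟨σ, s4, s5⟩ := jm_ext p g N σ0 s1
  obtain ⟨ρ, r1, r2⟩ := jm_ext p g N ((jm p g N).comp R) fun a => by
    simpa using map_dvd (jm p g N) (hR a)
  have U : Unip (ρ.comp σ) (jm p g N g) := ⟨fun x => by
    simpa using (r2 (σ x)).add (s5 x), by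
      obtain ⟨c, hc⟩ := s2
      refine ⟨ρ c, ?_⟩
      rw [RingHom.comp_apply, s4, eq_sub_of_add_eq hc, map_sub, map_mul, map_pow, r1,
        RingHom.comp_apply, Rg, map_neg]
      ring⟩
  have h1 := U.factor (M := M) (r := r) (jm_pow p g N) (P := jm p g N (s 0)) (Q := jm p g N (t 0))
    (by rw [RingHom.comp_apply, map_mul, s4, s4, s3 _ hs, s3 _ ht, ← map_mul, r1,
      RingHom.comp_apply, inv]) fun n x hn hx => by
      obtain ⟨x, rfl⟩ := Ideal.Quotient.mk_surjective x
      obtain ⟨a, b, e⟩ := Ideal.mem_span_pair.1 (hr n x (down _ _ hn hx))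
      exact Ideal.mem_span_pair.2 ⟨Ideal.Quotient.mk _ a, Ideal.Quotient.mk _ b, by
        rw [← e]; simp [jm]⟩
  rw [RingHom.comp_apply, s4, s3 _ hs, r1] at h1
  exact down M _ (by rw [hN]; nlinarith) h1

end Main

end Pool.Agent.MP_249f74_an.H40
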