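import Pool.Agent.MP_249f74_an.H17.CmEnd
import Pool.Agent.MP_249f74_an.H2.Sec2

/-!
The billiard map of a quadric is unipotent along the tangent complex.
-/

open MvPolynomial Matrix Set

namespace Pool.Agent.MP_249f74_an.H40

section Abs

variable {R L : Type} [CommRing R] [Field L] (f : R →+* L) {g : R} (hg : Prime g)

/-- Fractions whose denominators are prime to `g`. -/
def Oc : Subring L where
  carrier := {x | ∃ a b, ¬g ∣ b ∧ x * f b = f a}
  mul_mem' := by
    rintro x y ⟨a, b, h1, h2⟩ ⟨a', b', h3, h4⟩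
    exact ⟨a * a', b * b', hg.not_dvd_mul h1 h3, by rw [map_mul, map_mul, ← h2, ← h4]; ring⟩
  one_mem' := ⟨1, 1, hg.not_dvd_one, by simp⟩
  add_mem' := by
    rintro x y ⟨a, b, h1, h2⟩ ⟨a', b', h3, h4⟩
    exact ⟨a * b' + a' * b, b * b', hg.not_dvd_mul h1 h3, by
      simp only [map_mul, map_add, ← h2, ← h4]; ring⟩
  zero_mem' := ⟨0, 1, hg.not_dvd_one, by simp⟩
  neg_mem' := by
    rintro x ⟨a, b, h1, h2⟩
    exact ⟨-a, b, h1, by simp [h2]⟩

variable (g) in
/-- Units. -/
def Un (x : L) : Prop := ∃ a b, ¬g ∣ a ∧ ¬g ∣ b ∧ x * f b = f a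

/-- Congruent elements. -/
def Cg (x x' : L) : Prop := x ∈ Oc f hg ∧ ∃ y ∈ Oc f hg, x' = x + f g * y

variable {f hg} {x x' y y' : L}

lemma oc_base (a : R) : f a ∈ Oc f hg := ⟨a, 1, hg.not_dvd_one, by simp⟩

lemma Un.mem (h : Un f g x) : x ∈ Oc f hg := let ⟨a, b, _, h⟩ := h; ⟨a, b, h⟩

lemma Un.add (h : Un f g x) (hy : y ∈ Oc f hg) : Un f g (x + f g * y) := by
  obtain ⟨a, b, h1, h2, h3⟩ := h
  obtain ⟨a', b', h4, h5⟩ := hy
  refine ⟨a * b' + g * (a' * b), b * b', fun h => hg.not_dvd_mul h1 h4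
    ((dvd_add_left (dvd_mul_right _ _)).1 h), hg.not_dvd_mul h2 h4, ?_⟩
  simp only [map_mul, map_add, ← h3, ← h5]; ring

lemma Un.ne (hf : Function.Injective f) (h : Un f g x) : x ≠ 0 := by
  rintro rfl
  obtain ⟨a, b, h1, -, h3⟩ := h
  exact h1 ((map_eq_zero_iff f hf).1 (h3.symm.trans (zero_mul _)) ▸ dvd_zero g)

lemma Un.inv (hf : Function.Injective f) (h : Un f g x) : Un f g x⁻¹ := by
  have := h.ne hf
  obtain ⟨a, b, h1, h2, h3⟩ := h
  exact ⟨b, a, h2, h1, by rw [← h3, inv_mul_cancel_left₀ this]⟩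

lemma Cg.mem (h : Cg f hg x x') : x' ∈ Oc f hg := by
  obtain ⟨h, y, hy, rfl⟩ := h
  exact add_mem h (mul_mem (oc_base g) hy)

lemma Cg.refl (h : x ∈ Oc f hg) : Cg f hg x x := ⟨h, 0, zero_mem _, by simp⟩

lemma Cg.add (h : Cg f hg x x') (h' : Cg f hg y y') : Cg f hg (x + y) (x' + y') := by
  obtain ⟨h, a, ha, rfl⟩ := h
  obtain ⟨h', b, hb, rfl⟩ := h'
  exact ⟨add_mem h h', a + b, add_mem ha hb, by ring⟩

lemma Cg.mul (h : Cg f hg x x') (h' : Cg f hg y y') : Cg f hg (x * y) (x' * y') := by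
  have := h'.mem
  obtain ⟨h, a, ha, rfl⟩ := h
  obtain ⟨h', b, hb, e⟩ := h'
  exact ⟨mul_mem h h', a * y' + x * b, add_mem (mul_mem ha this) (mul_mem h hb), by
    linear_combination x * e⟩

lemma Cg.un (h : Cg f hg x x') (hx : Un f g x) : Un f g x' := by
  obtain ⟨-, a, ha, rfl⟩ := h
  exact hx.add ha

lemma Cg.inv (hf : Function.Injective f) (h : Cg f hg x x') (hx : Un f g x) :
    Cg f hg x⁻¹ x'⁻¹ := by
  have h1 := h.un hx
  have h2 := hx.ne hf
  have h3 := h1.ne hf
  obtain ⟨-, a, ha, e⟩ := h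
  refine ⟨(hx.inv hf).mem, -(a * x⁻¹ * x'⁻¹), neg_mem (mul_mem (mul_mem ha (hx.inv hf).mem)
    (h1.inv hf).mem), ?_⟩
  field_simp
  linear_combination -e

lemma Cg.eval {K σ : Type} [CommRing K] {φ ψ : K →+* L} {u v : σ → L}
    (h0 : ∀ c, Cg f hg (φ c) (ψ c)) (h : ∀ i, Cg f hg (u i) (v i)) (P : MvPolynomial σ K) :
    Cg f hg (eval₂ φ u P) (eval₂ ψ v P) := by
  induction P using MvPolynomial.induction_on with
  | C c => simpa using h0 c
  | add p q hp hq => simpa using hp.add hq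
  | mul_X p i hp => simpa using hp.mul (h i)

variable [IsDomain R] [WfDvdMonoid R] [Algebra ℚ R]

omit [Algebra ℚ R] in
lemma dec (hg : Prime g) (hf : Function.Injective f) {a b : R} (ha : a ≠ 0) (hb : b ≠ 0) :
    ∃ (i j : ℕ) (e : L), Un f g e ∧ (¬g ∣ b → j = 0) ∧ f a / f b = f g ^ i / f g ^ j * e := by
  obtain ⟨i, a, h1, rfl⟩ := WfDvdMonoid.max_power_factor ha hg.irreducible
  obtain ⟨j, b, h2, rfl⟩ := WfDvdMonoid.max_power_factor hb hg.irreducible
  have h3 : f b ≠ 0 := (map_ne_zero_iff f hf).2 (right_ne_zero_of_mul hb)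
  refine ⟨i, j, f a / f b, ⟨a, b, h1, h2, div_mul_cancel₀ _ h3⟩, fun h => by_contra fun e =>
    h ((dvd_pow_self g e).mul_right b), ?_⟩
  rw [map_mul, map_mul, map_pow, map_pow, mul_div_mul_comm]

/-- Elements with a finite orbit under a unipotent map are fixed. -/
theorem uni_abs (hf : Function.Injective f) (s : L →+* L) (hs : ∀ a, Cg f hg (f a) (s (f a)))
    (h0 : s (f g) = f g) {a b : R} {N : ℕ} (hN : 0 < N) (h : s^[N] (f a / f b) = f a / f b) :
    s (f a / f b) = f a / f b := by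
  have g0 : f g ≠ 0 := (map_ne_zero_iff f hf).2 hg.ne_zero
  have c1 : ∀ x ∈ Oc f hg, Cg f hg x (s x) := by
    rintro x ⟨a, b, h1, h2⟩
    have h3 : Un f g (f b) := ⟨b, 1, h1, hg.not_dvd_one, by simp⟩
    obtain rfl := (eq_mul_inv_iff_mul_eq₀ (h3.ne hf)).2 h2
    rw [map_mul, map_inv₀]
    exact (hs a).mul ((hs b).inv hf h3)
  by_cases ha : a = 0
  · simp [ha]
  by_cases hb : b = 0
  · simp [hb]
  obtain ⟨i, j, e, e1, -, e2⟩ := dec hg hf ha hb
  have c2 : s (f g ^ i / f g ^ j) = f g ^ i / f g ^ j := by simp [h0]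
  rw [e2, iterate_map_mul, Function.iterate_fixed c2] at h
  replace h := mul_left_cancel₀ (div_ne_zero (pow_ne_zero _ g0) (pow_ne_zero _ g0)) h
  rw [e2, map_mul, c2]
  obtain ⟨-, y, ⟨a, b, y1, y2⟩, hy⟩ := c1 e e1.mem
  have b0 : b ≠ 0 := fun e => y1 (e ▸ dvd_zero g)
  by_cases ha : a = 0
  · rw [ha, map_zero, mul_eq_zero, or_iff_left ((map_ne_zero_iff f hf).2 b0)] at y2
    simp [hy, y2]
  obtain ⟨n, m, η, n1, n2, n3⟩ := dec hg hf ha b0
  rw [← y2, mul_div_cancel_right₀ _ ((map_ne_zero_iff f hf).2 b0), n2 y1] at n3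
  have c3 : ∀ r : ℕ, ∃ z ∈ Oc f hg, s^[r] e = e + f g ^ (n + 1) * (r * η + f g * z) := fun r => by
    induction r with
    | zero => exact ⟨0, zero_mem _, by simp⟩
    | succ r ih =>
      obtain ⟨z, z1, z2⟩ := ih
      obtain ⟨-, w, w1, w2⟩ := c1 η n1.mem
      refine ⟨r * w + s z, add_mem (mul_mem (natCast_mem _ r) w1) (c1 z z1).mem, ?_⟩
      rw [Function.iterate_succ_apply', z2]
      simp only [map_add, map_mul, map_pow, map_natCast, h0, hy, n3, w2]
      push_cast
      ring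
  obtain ⟨z, z1, z2⟩ := c3 N
  obtain ⟨c, d, d1, d2, d3⟩ := n1
  refine absurd ?_ ((Un.add (x := N * η) ⟨N * c, d, fun h => d1 (H65.dvd_of_nat hN.ne' h), d2, by
    simp [← d3, mul_assoc]⟩ z1).ne hf)
  simpa [h, g0] using z2

end Abs

open H17.Cm (grad dv rf top)
open H32
open H42 (ev Gen FL mp)
open H2.Sc (tri res gen_free toL aeval_res)
open H88 (cl subset_cl)

variable {k C L ι : Type} [Field k] [Algebra k ℝ] [Field C] [Algebra k C] [Field L] [CharZero L]
  [Algebra C L] [Fintype ι] [DecidableEq ι] {m : Mir k C ι} {l l' : ι ⊕ ι → L} {t t' : L}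

/-- The parameter and the direction are independent over the field of the point. -/
lemma ind_tu (hl : Gen C l) (ht : t ∈ Pts m l) (K : IntermediateField C L)
    (hK : K ≤ cl C (range (pt l t))) :
    AlgebraicIndependent K fun o : Option ι => o.elim t (dir l) :=
  H17.Cm.indep_of_dual fun j => by
    obtain ⟨D, d1, d2, d3⟩ := gen_free hl m.prime.irreducible (mem_pts.1 ht).2 0
      (fun i => (Pi.single j 1 : Option ι → L) (some i)) ((Pi.single j 1 : Option ι → L) none)
      (by simp)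
    refine ⟨toL K D fun a ha => H96.Kil.cl (S := range (pt l t))
      (by rintro _ ⟨i, rfl⟩; exact congrFun d1 i) a (hK ha), funext fun o => ?_⟩
    rcases o with _ | i
    exacts [d3, congrFun d2 i]

/-- The points of generic edges are conjugate. -/
theorem sig [IsAlgClosed L] (hl : Gen C l) (hl' : Gen C l') (ht : t ∈ Pts m l)
    (ht' : t' ∈ Pts m l') : ∃ s : L ≃ₐ[C] L, mp s l = l' ∧ s t = t' := by
  have key : ∀ {l : ι ⊕ ι → L} {t : L}, Gen C l → t ∈ Pts m l → ∀ G : MvPolynomial _ C,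
      aeval (tri (pt l t) (dir l) t) G = 0 ↔ res (pt l t) G = 0 := fun hl ht G => by
    rw [← aeval_res]
    exact map_eq_zero_iff _ (ind_tu hl ht _ le_rfl)
  obtain ⟨g, hg⟩ := H96A.Bt.conj_fam (pt l t) (pt l' t') fun G =>
    (gen_on hl (mem_pts.1 ht).2 G).trans (gen_on hl' (mem_pts.1 ht').2 G).symm
  have e : pt (mp g l) (g t) = pt l' t' := (pt_mp ..).trans (funext hg)
  obtain ⟨s, hs⟩ := H96A.Bt.conj_fam (C := C) (tri (pt l t) (dir l) t)
    (tri (pt l' t') (dir l') t') fun G => by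
      rw [key hl' ht', ← e, ← key (fun F h => hl F (by
        rwa [ev_mp, map_eq_zero_iff g g.injective] at h)) (pts_map g ht), ← map_eq_zero_iff g g.injective,
        ← aeval_map]
      congr! 3
      ext (i | _ | i)
      exacts [(congrFun (pt_mp g l t) i).symm, rfl, rfl]
  have e1 : s t = t' := hs (.inr none)
  refine ⟨s, eq_of_pt (t := t') ?_ (funext fun i => hs (.inr (some i))), e1⟩
  rw [← e1, pt_mp, e1]
  exact funext fun i => hs (.inl i)

/-- Functions of an edge and a point with a finite orbit under the billiard map of a quadric are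
fixed. -/
theorem uni [IsAlgClosed C] (hm : Qd m) (hl : Gen C l) (st : St m l t l') (ht' : t' ∈ Pts m l')
    (ne : t' ≠ t) (s : L ≃ₐ[C] L) (h1 : mp s l = l') (h2 : s t = t') {φ : L}
    (hφ : φ ∈ IntermediateField.adjoin C (range l ∪ {t})) {N : ℕ} (hN : 0 < N)
    (h : (s ^ N) φ = φ) : s φ = φ := by
  have : CharZero C := (algebraMap C L).charZero
  have on := gen_on hl st.zero
  have nn := st.nn
  have du := st.dir_eq
  have q1 : pt l' t' = pt l t + (t' - t) • dir l' := by rw [← st.pt_eq, pt, pt]; module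
  have sq : s ∘ pt l t = pt l' t' := by rw [← pt_mp, h1, h2]
  have su : s ∘ dir l = dir l' := by rw [← dir_mp, h1]
  have z1 := (mem_pts.1 ht').2
  have hi := fun K => ind_tu hl st.mem K
  have hp : ∀ i, l (.inl i) = pt l t i - t * dir l i := fun i => by simp [pt, pos]
  have hd : ∀ i, l (.inr i) = dir l i := fun i => rfl
  generalize pt l t = q at *
  generalize dir l = u at *
  generalize dir l' = v at *
  let K := IntermediateField.adjoin C (range q)
  have qK : ∀ i, q i ∈ K := fun i => IntermediateField.subset_adjoin _ _ ⟨i, rfl⟩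
  have pK : ∀ P : MvPolynomial ι C, aeval q P ∈ K := fun P =>
    (IntermediateField.mem_adjoin_range_iff ..).2 ⟨P, 1, by simp⟩
  let x : Option ι → L := fun o => o.elim t u
  let f := (aeval x : MvPolynomial (Option ι) K →ₐ[K] L).toRingHom
  have hf : Function.Injective f := hi K (IntermediateField.adjoin_le_iff.2 (subset_cl _))
  let n : Option ι → K := fun o => o.elim 0 fun i => ⟨grad m.f q i, pK _⟩
  have hg : Prime (H65.lin n) := H65.lin_prime fun e =>
    on.grad_ne (funext fun i => congrArg Subtype.val (congrFun e (some i)))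
  have en : ∀ y : Option ι → L, aeval y (H65.lin n) = grad m.f q ⬝ᵥ fun i => y (some i) :=
    fun y => by simp [H65.aeval_lin, n, dotProduct]
  have fg : f (H65.lin n) = grad m.f q ⬝ᵥ u := en x
  have oK : ∀ a ∈ K, a ∈ Oc f hg := fun a ha => by
    simpa [f] using oc_base (f := f) (hg := hg) (MvPolynomial.C ⟨a, ha⟩)
  have ox : ∀ o, x o ∈ Oc f hg := fun o => by simpa [f] using oc_base (f := f) (hg := hg) (X o)
  have cC : ∀ c, Cg f hg (algebraMap C L c) (algebraMap C L c) := fun c =>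
    .refl (oK _ (K.algebraMap_mem c))
  have cu : ∀ i, Cg f hg (u i) (v i) := fun i => ⟨ox (some i), _, oK (-(2 * grad m.f q i /
    ∑ j, grad m.f q j * grad m.f q j)) (neg_mem (div_mem (mul_mem (ofNat_mem _ 2) (pK _))
      (sum_mem fun j _ => mul_mem (pK _) (pK _)))), by rw [fg, du]; simp [rf, dotProduct]; ring⟩
  have tv : Un f (H65.lin n) (top m.f v) := by
    obtain ⟨w, w1, w2⟩ := H17.Cm.exists_tan hm on on.grad_ne
    have e : ∀ y : Option ι → L, aeval y (map (algebraMap C K) (rename some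
      (homogeneousComponent m.f.totalDegree m.f))) = top m.f fun i => y (some i) := fun y => by
      rw [aeval_map_algebraMap, aeval_rename]; rfl
    refine (Cg.eval cC cu _).un ⟨_, 1, fun h => w2 ?_, hg.not_dvd_one,
      (congrArg _ f.map_one).trans ((mul_one _).trans (e x).symm)⟩
    obtain ⟨b, hb⟩ := h
    refine (e fun o => o.elim 0 w).symm.trans ?_
    rw [hb, map_mul, en]
    simp [w1]
  have nv : grad m.f q ⬝ᵥ v = -(grad m.f q ⬝ᵥ u) := du ▸ H17.Cm.dot_rf nn u
  have tau : top m.f v * (t' - t) = grad m.f q ⬝ᵥ u := by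
    rw [q1, H17.Cm.aeval_two hm, on.zero, nv] at z1
    exact mul_right_cancel₀ (sub_ne_zero.2 ne) (by linear_combination z1)
  have tau' : t' - t = f (H65.lin n) * (top m.f v)⁻¹ := by
    rw [fg, ← tau, mul_comm (top _ _), mul_inv_cancel_right₀ (tv.ne hf)]
  have cq : ∀ i, Cg f hg (q i) (s (q i)) := fun i => ⟨oK _ (qK i), _,
    mul_mem (tv.inv hf).mem (cu i).mem, by
      rw [show s (q i) = _ from congrFun sq i, q1, tau', ← mul_assoc]; rfl⟩
  have cP : ∀ P : MvPolynomial ι C, Cg f hg (aeval q P) (s (aeval q P)) := fun P =>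
    aeval_map s q P ▸ Cg.eval cC cq P
  have cK : ∀ a : K, Cg f hg a (s a) := fun ⟨a, ha⟩ => by
    obtain ⟨P, Q, rfl⟩ := (IntermediateField.mem_adjoin_range_iff ..).1 ha
    by_cases Q0 : aeval q Q = 0
    · simpa [Q0] using Cg.refl (zero_mem (Oc f hg))
    simp only [div_eq_mul_inv, map_mul, map_inv₀]
    refine (cP P).mul ((cP Q).inv hf ⟨MvPolynomial.C ⟨_, pK Q⟩, 1, fun h => hg.not_isUnit
      (isUnit_of_dvd_unit h ((Ne.isUnit fun e => Q0 (congrArg Subtype.val e)).map _)),
      hg.not_dvd_one, by simp [f]⟩)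
  obtain ⟨a, b, rfl⟩ := (IntermediateField.mem_adjoin_range_iff K x φ).1
    ((IntermediateField.adjoin_le_iff (T := (IntermediateField.adjoin K
      (range x)).restrictScalars C)).2 (by
      have hx : ∀ o, x o ∈ IntermediateField.adjoin K (range x) := fun o =>
        IntermediateField.subset_adjoin _ _ ⟨o, rfl⟩
      rintro _ (⟨i | i, rfl⟩ | rfl)
      · rw [hp]
        exact sub_mem (IntermediateField.algebraMap_mem _ (⟨_, qK i⟩ : K))
          (mul_mem (hx none) (hx (some i)))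
      · exact hd i ▸ hx (some i)
      · exact hx none) hφ)
  refine uni_abs (hg := hg) hf s.toRingEquiv.toRingHom (fun a => ?_) ?_ hN
    ((congrFun (AlgEquiv.coe_pow s N) _).symm.trans h)
  · have := Cg.eval (φ := algebraMap K L) (ψ := s.toRingEquiv.toRingHom.comp (algebraMap K L))
      (u := x) (v := s ∘ x) cK (by
        rintro (_ | i)
        · exact ⟨ox none, _, (tv.inv hf).mem, by
            change s t = t + _
            rw [← tau', h2, add_sub_cancel]⟩
        · exact (congrFun su i).symm ▸ cu i) a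
    exact (eval₂_comp_left s.toRingEquiv.toRingHom (algebraMap K L) x a).symm ▸ this
  · change s (f _) = _
    rw [fg, ← dot_map, ← grad_map, sq, su, q1, H17.Cm.grad_two hm, nv]
    linear_combination 2 * tau

end Pool.Agent.MP_249f74_an.H40
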