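import Pool.Agent.MP_249f74_an.H18.Spec
import Pool.Agent.MP_249f74_an.H32.Move
import Pool.Agent.MP_249f74_an.H2.Sec2

/-!
The prime factors of discriminants have rank one.
-/

open MvPolynomial Matrix

namespace Pool.Agent.MP_249f74_an.H40

open H17.Cm (grad dv grad_dv eq_zero_of_stable)
open H32
open H42 (ev Gen Cur FL Sf Sp)
open H2.Sc (Gp gen_of_mod gp_of_gen dv_pt dot_sum)

variable {k C Ω ι κ : Type} [Field k] [Algebra k ℝ] [Field C] [Algebra k C] [Field Ω]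
  [Algebra C Ω] [CharZero Ω] [Fintype ι] [DecidableEq ι] [Fintype κ]

omit [CharZero Ω] in
/-- Generic points of hypersurfaces exist. -/
lemma ex_cur [IsAlgClosed Ω] {l : κ → Ω} (hl : Gen C l) {π : MvPolynomial κ C} (hπ : Prime π) :
    ∃ e : κ → Ω, ∀ G, ev e G = 0 ↔ π ∣ G := by
  classical
  have hi : ∀ j : κ, AlgebraicIndependent C fun i : {i // i ≠ j} => l i := fun j =>
    (gen_iff.1 hl).comp _ Subtype.val_injective
  obtain ⟨j, hj⟩ : ∃ j, (H88.uni C j π).natDegree ≠ 0 := by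
    by_contra! hn
    have h1 : π.vars = ∅ := Finset.eq_empty_of_forall_notMem fun j hj =>
      mem_vars_iff_degreeOf_ne_zero.1 hj (by
        rw [← hn j, ← degreeOf_rename_of_injective (Equiv.optionSubtypeNe j).symm.injective,
          Equiv.optionSubtypeNe_symm_self, ← natDegree_optionEquivLeft]
        rfl)
    obtain h2 := vars_eq_empty_iff_eq_C.1 h1
    refine hπ.not_isUnit (h2 ▸ IsUnit.map _ (Ne.isUnit fun e => hπ.ne_zero ?_))
    rw [h2, e, map_zero]
  obtain ⟨y, hy⟩ := IsAlgClosed.exists_root ((H88.uni C j π).map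
    (aeval fun i : {i // i ≠ j} => l i : MvPolynomial _ C →ₐ[C] Ω).toRingHom) fun e => hj (by
      rw [← Polynomial.natDegree_map_eq_of_injective (hi j)]
      exact Polynomial.natDegree_eq_of_degree_eq_some (n := 0) e)
  have h1 : (fun i : {i // i ≠ j} => Function.update l j y i) = fun i : {i // i ≠ j} => l i :=
    funext fun i => Function.update_of_ne i.2 _ _
  refine ⟨Function.update l j y, gp_of_gen ⟨j, h1 ▸ hi j⟩ hπ.irreducible ?_⟩
  rw [H88.aeval_uni j, h1, Function.update_self, ← Polynomial.eval_map]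
  exact hy

/-- A conormal vector at a root of a polynomial. -/
lemma con_root {z : κ → Ω} {F : MvPolynomial κ C} (hF : F ≠ 0) (h0 : aeval z F = 0) :
    ∃ n : κ → Ω, n ≠ 0 ∧ ∀ D : Derivation C Ω Ω, n ⬝ᵥ dv D z = 0 := by
  classical
  obtain ⟨P, h1, j, h2⟩ : ∃ P : MvPolynomial κ C, aeval z P = 0 ∧ ∃ j, grad P z j ≠ 0 := by
    by_contra hn
    push Not at hn
    exact hF (eq_zero_of_stable (y := z) _ (fun P hP => ⟨hP, hn P hP⟩) F h0)
  exact ⟨_, fun e => h2 (congrFun e j), fun D => grad_dv h1⟩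

/-- A conormal vector at a point that is not generic, orthogonal to a given vector. -/
lemma con_pt {z : κ → Ω} {F : MvPolynomial κ C} (hF : Irreducible F) (h0 : aeval z F = 0)
    (hz : ¬Gp F z) (u : κ → Ω) :
    ∃ n : κ → Ω, n ≠ 0 ∧ n ⬝ᵥ u = 0 ∧ ∀ D : Derivation C Ω Ω, n ⬝ᵥ dv D z = 0 := by
  classical
  let W : Submodule Ω (κ → Ω) :=
    { carrier := {w | ∃ (D : Derivation C Ω Ω) (s : Ω), dv D z = w + s • u}
      add_mem' := by
        rintro a b ⟨D, s, h⟩ ⟨D', s', h'⟩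
        exact ⟨D + D', s + s', by rw [H17.Cm.add_dv, h, h']; module⟩
      zero_mem' := ⟨0, 0, by ext; simp [dv]⟩
      smul_mem' := by
        rintro c a ⟨D, s, h⟩
        exact ⟨c • D, c * s, by rw [mul_smul, ← smul_add, ← h]; ext; simp [dv]⟩ }
  obtain ⟨f, f0, hf⟩ := W.exists_le_ker_of_lt_top (lt_top_iff_ne_top.2 fun e =>
    hz (gp_of_gen (gen_of_mod hF.ne_zero h0 fun w => (e ▸ Submodule.mem_top : w ∈ W)) hF h0))
  have e : ∀ w, (fun i => f (Pi.single i 1)) ⬝ᵥ w = f w := fun w => by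
    rw [LinearMap.pi_apply_eq_sum_univ f w]
    exact Finset.sum_congr rfl fun i _ => by
      rw [mul_comm, smul_eq_mul]
      exact congrArg (fun x => w i * f x) (funext fun j => by simp [Pi.single_apply, eq_comm])
  refine ⟨fun i => f (Pi.single i 1), fun h => f0 (LinearMap.ext fun w => by rw [← e, h]; simp),
    ?_, fun D => ?_⟩ <;> rw [e]
  · exact hf ⟨0, -1, by ext; simp [dv]⟩
  · exact hf ⟨D, 0, by simp⟩

variable {m : Mir k C ι} {l e : ι ⊕ ι → Ω} {π : MvPolynomial (ι ⊕ ι) C}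

omit [DecidableEq ι] in
lemma rk_of_con (hπ : Prime π) (he : ∀ G, ev e G = 0 ↔ π ∣ G) {n : ι → Ω} {a b : Ω}
    (h0 : Sum.elim (a • n) (b • n) ≠ 0)
    (h : ∀ D : Derivation C Ω Ω, Sum.elim (a • n) (b • n) ⬝ᵥ dv D e = 0) : H18.RK π := by
  obtain ⟨c, hc⟩ := eq_smul_grad hπ he h
  have c0 : c ≠ 0 := fun e => h0 (by rw [hc, e, zero_smul])
  intro i j
  have h1 := fun i => congrFun hc (.inl i)
  have h2 := fun i => congrFun hc (.inr i)
  simp only [Sum.elim_inl, Sum.elim_inr, Pi.smul_apply, smul_eq_mul, grad] at h1 h2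
  refine (he _).1 (mul_left_cancel₀ (pow_ne_zero 2 c0) ?_)
  simp only [ev, map_sub, map_mul]
  linear_combination -(c * aeval e (pderiv (.inr j) π)) * h1 i - a * n i * h2 j +
    (c * aeval e (pderiv (.inr i) π)) * h1 j + a * n j * h2 i

variable [IsAlgClosed C] [IsAlgClosed Ω]

/-- A zero of the discriminant has a multiple point or a point at infinity. -/
lemma dbl (hf : Sf C Ω (ι ⊕ ι)) (hS : (sys k C Ω ι).Sec) (hl : Gen C l) (he : Cur C e)
    (h0 : ev e (Δ Ω m) = 0) : aeval (dir e) (homogeneousComponent m.f.totalDegree m.f) = 0 ∨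
      ∃ t, aeval (pt e t) m.f = 0 ∧ grad m.f (pt e t) ⬝ᵥ dir e = 0 := by
  classical
  refine or_iff_not_imp_left.2 fun top => ?_
  obtain ⟨P, hP, hσ⟩ := H42.place hf hl he (hS.sqf m) h0
  obtain ⟨r, hr⟩ := IsAlgClosed.exists_pow_nat_eq (ev l (Δ Ω m)) two_pos
  have r0 : r ≠ 0 := fun e => (hS.sqf m).ne_zero (hl _ (by
    change ev l (Δ Ω m) = 0
    rw [← hr, e]; simp))
  obtain ⟨y, hy, ne⟩ : ∃ y ∈ Pts m l, P.σ y ≠ y := by
    by_contra! hn
    have h1 := hS.sgn m l hl P.σ hP.fx r hr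
    rw [hσ r hr, show H96A.sg P.σ ((sys k C Ω ι).Pts m l) = 1 from H96A.grp.one _ _ hn] at h1
    exact r0 (by linear_combination (norm := (push_cast; ring1)) (-1 / 2 : Ω) * h1)
  have sp : H96A.Lift.SP P (sec m.f l) (sec m.f e) :=
    (H27.sv_pos hP.sp).line (H27.sv_dir hP.sp) m.f
  have s0 : sec m.f e ≠ 0 := H2.Sc.line_ne top
  have z : ∀ y ∈ Pts m l, (sec m.f l).eval y = 0 := fun y hy =>
    (eval_sec ..).trans (mem_pts.1 hy).2
  obtain ⟨b, b1, b2⟩ := H96A.Lift.fin sp s0 ((H2.Sc.deg_line top).trans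
    (natDegree_sec m.prime.ne_zero (gen_dir hl)).symm) (z y hy)
  have h4 := H96A.Lift.mult (b := b) {P.σ y, y} sp s0 fun x hx => by
    rcases Finset.mem_insert.1 hx with rfl | hx
    · exact ⟨z _ (pts_stb hP.fx hy), P.ine b2⟩
    · rw [Finset.mem_singleton.1 hx]
      exact ⟨z y hy, b2⟩
  rw [Finset.card_pair ne] at h4
  exact ⟨b, (eval_sec ..).symm.trans b1, (eval_derivative_sec ..).symm.trans
    ((Polynomial.one_lt_rootMultiplicity_iff_isRoot s0).1 h4).2⟩

theorem rkd (hf : Sf C Ω (ι ⊕ ι)) (hS : (sys k C Ω ι).Sec) : H18.RKD k C Ω ι := by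
  rintro m l π hl hπ hd
  obtain ⟨e, he⟩ := ex_cur hl hπ
  rcases dbl hf hS hl ⟨π, hπ, he⟩ ((he _).2 hd) with h | ⟨t, h1, h2⟩
  · obtain ⟨n, n0, hn⟩ := con_root (top_ne m.prime.ne_zero) h
    refine rk_of_con hπ he (n := n) (a := 0) (b := 1)
      (fun e => n0 (funext fun i => by simpa using congrFun e (.inr i))) fun D => ?_
    rw [dot_sum]
    change (0 : Ω) • n ⬝ᵥ _ + (1 : Ω) • n ⬝ᵥ dv D (dir e) = 0
    simp [hn]
  · obtain ⟨n, n0, h3, hn⟩ : ∃ n : ι → Ω, n ≠ 0 ∧ n ⬝ᵥ dir e = 0 ∧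
        ∀ D : Derivation C Ω Ω, n ⬝ᵥ dv D (pt e t) = 0 := by
      by_cases h : m.On (pt e t)
      · exact ⟨_, h.grad_ne, h2, fun D => grad_dv h1⟩
      · exact con_pt m.prime.irreducible h1 h _
    refine rk_of_con hπ he (n := n) (a := 1) (b := t)
      (fun e => n0 (funext fun i => by simpa using congrFun e (.inl i))) fun D => ?_
    have := hn D
    rw [show dv D (pt e t) = _ from dv_pt D e t, dotProduct_add, dotProduct_smul,
      show n ⬝ᵥ H2.Sc.us e = 0 from h3] at this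
    rw [dot_sum]
    change (1 : Ω) • n ⬝ᵥ _ + t • n ⬝ᵥ _ = 0
    simpa using this

end Pool.Agent.MP_249f74_an.H40
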