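import Pool.Agent.MP_249f74_an.H40.Tay
import Pool.Agent.MP_249f74_an.H65.Defs

/-!
A complex of lines in a finite class is invariant at a good tangent direction.
-/

open MvPolynomial

namespace Pool.Agent.MP_249f74_an.H40

open H65

variable {k K ι : Type} [Field k] [Field K] [Algebra k K] [Fintype ι] [DecidableEq ι]
  [CharZero K] {q w : ι → K} {e : ι} {d : ι → Derivation k K K}

/-- A factor of an invariant line polynomial is invariant near a good tangent direction. -/
theorem ug (G : Gr q e w d) (p : Ideal (MvPolynomial ι K)) [p.IsPrime] (hg : lin w ∈ p)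
    (hh : hq w d ∉ p) {P Q : MvPolynomial (ι ⊕ ι) k} (hP : Lin P) (hQ : Lin Q)
    (hc : IsRelPrime (pen q P) (pen q Q)) {c : K}
    (inv : rf w (pen q P * pen q Q) = C c * (pen q P * pen q Q)) :
    ∃ s ∉ p, pen q P ∣ s * rf w (pen q P) := by
  by_cases h0 : pen q P * pen q Q = 0
  · rcases mul_eq_zero.1 h0 with h | h
    · exact ⟨1, (Ideal.ne_top_iff_one p).1 Ideal.IsPrime.ne_top', by simp [h]⟩
    · rw [h, isRelPrime_zero_right] at hc
      exact ⟨1, (Ideal.ne_top_iff_one p).1 Ideal.IsPrime.ne_top', hc.dvd⟩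
  have h1 : (C c : MvPolynomial ι K) ^ 2 = 1 := by
    have h2 := congrArg (rf w) inv
    rw [G.rf_rf, map_mul (rf w) (C c), inv, rf, aeval_C, algebraMap_eq] at h2
    exact mul_right_cancel₀ h0 (by linear_combination -h2)
  obtain ⟨s, s1, s2⟩ := ug_abs (D := mkD d X 0) hg (by rwa [Gr.xe_g]) (rf w).toRingHom Gr.rf_sub
    G.rf_g (G.sq (hP.mul hP)) (G.sq (hQ.mul hQ)) (by
      simp only [Function.iterate_zero_apply, map_mul (pen q)]
      rw [mul_mul_mul_comm, map_mul]
      change rf w _ * rf w _ = _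
      rw [inv]
      linear_combination (pen q P * pen q Q) ^ 2 * h1) fun x hx => by
      simp only [Function.iterate_zero_apply, map_mul (pen q)] at hx ⊢
      exact ((hc.mul_left hc).mul_right (hc.mul_left hc)).dvd_of_dvd_mul_right hx
  refine ⟨s, s1, (UniqueFactorizationMonoid.pow_dvd_pow_iff_dvd two_ne_zero).1 ?_⟩
  simp only [Function.iterate_zero_apply, map_mul] at s2
  change _ ∣ s * (rf w _ * rf w _) at s2
  convert s2.mul_left s using 1 <;> ring

/-- Every component of the cone through a good tangent direction is reflected into the cone. -/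
theorem ug_prime (G : Gr q e w d) (p : Ideal (MvPolynomial ι K)) [hp : p.IsPrime]
    (hg : lin w ∈ p) (hh : hq w d ∉ p) {P Q : MvPolynomial (ι ⊕ ι) k} (hP : Lin P) (hQ : Lin Q)
    (hc : IsRelPrime (pen q P) (pen q Q)) {c : K}
    (inv : rf w (pen q P * pen q Q) = C c * (pen q P * pen q Q)) {ψ : MvPolynomial ι K}
    (hψ : Prime ψ) (h1 : ψ ∈ p) (h2 : ψ ∣ pen q P) : rf w ψ ∣ pen q P := by
  obtain ⟨s, s1, s2⟩ := ug G p hg hh hP hQ hc inv
  have h3 := map_dvd (rf w) (h2.trans s2)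
  rw [map_mul, G.rf_rf] at h3
  have hm : ∀ a, rf w a ∈ p ↔ a ∈ p := fun a => by
    obtain ⟨y, hy⟩ := Gr.rf_sub (w := w) a
    rw [eq_add_of_sub_eq hy]
    exact Ideal.add_mem_iff_right _ (Ideal.mul_mem_right _ _ hg)
  have h4 : Prime (rf w ψ) := (MulEquiv.prime_iff
    (⟨⟨rf w, rf w, G.rf_rf, G.rf_rf⟩, map_mul _⟩ : MvPolynomial ι K ≃* MvPolynomial ι K)).2 hψ
  refine (h4.dvd_or_dvd h3).resolve_left fun ⟨y, hy⟩ => s1 ((hm s).1 ?_)
  rw [hy]
  exact Ideal.mul_mem_right _ _ ((hm ψ).2 h1)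

end Pool.Agent.MP_249f74_an.H40
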