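import Mathlib

/-!
Unipotent endomorphisms fix every factor of an invariant product.
-/

open Polynomial

namespace Pool.Agent.MP_249f74_an.H40

section Poly

variable {A : Type*} [CommRing A] [Algebra ℚ A]

lemma unit_nat {n : ℕ} (hn : n ≠ 0) : IsUnit (n : A) := by
  rw [← map_natCast (algebraMap ℚ A)]
  exact (IsUnit.mk0 (n : ℚ) (by exact_mod_cast hn)).map _

/-- A polynomial vanishing at all large natural numbers vanishes. -/
lemma poly_zero (d : ℕ) : ∀ (f : A[X]) (m : ℕ), f.natDegree ≤ d →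
    (∀ n : ℕ, m ≤ n → f.eval (n : A) = 0) → f = 0 := by
  induction d with
  | zero =>
    intro f m hd h
    rw [eq_C_of_natDegree_le_zero hd] at h ⊢
    simpa using congrArg C (by simpa using h m le_rfl : f.coeff 0 = 0)
  | succ d ih =>
    intro f m hd h
    nontriviality A
    have e := mul_divByMonic_eq_iff_isRoot.2 (h m le_rfl)
    have h2 := ih (f /ₘ (X - C (m : A))) (m + 1) (by
      rw [natDegree_divByMonic _ (monic_X_sub_C _), natDegree_X_sub_C]; omega) fun n hn => by
        have h3 := h n (by omega)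
        rw [← e, eval_mul, eval_sub, eval_X, eval_C, ← Nat.cast_sub (by omega)] at h3
        exact (unit_nat (by omega)).mul_right_eq_zero.1 h3
    rw [← e, h2, mul_zero]

/-- Binomial polynomials. -/
noncomputable def bp (A : Type*) [CommRing A] [Algebra ℚ A] (k : ℕ) : A[X] :=
  (C ((k.factorial : ℚ)⁻¹) * descPochhammer ℚ k).map (algebraMap ℚ A)

lemma bp_eval (k n : ℕ) : (bp A k).eval (n : A) = (n.choose k : A) := by
  rw [bp, ← map_natCast (algebraMap ℚ A), eval_map, eval₂_hom, eval_mul, eval_C,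
    descPochhammer_eval_eq_descFactorial, Nat.descFactorial_eq_factorial_mul_choose,
    Nat.cast_mul, inv_mul_cancel_left₀ (by exact_mod_cast k.factorial_ne_zero), map_natCast]

lemma bp_coeff {k i : ℕ} (h : k < i) : (bp A k).coeff i = 0 := by
  refine coeff_eq_zero_of_natDegree_lt (lt_of_le_of_lt ?_ h)
  refine natDegree_map_le.trans ((natDegree_C_mul_le _ _).trans ?_)
  rw [descPochhammer_natDegree]

end Poly

section Unip

variable {A : Type*} [CommRing A] {γ : A} (T : A →+* A)

/-- The endomorphism is the identity on the graded ring of `γ`. -/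
structure Unip (γ : A) : Prop where
  sub : ∀ x, γ ∣ T x - x
  gen : γ ^ 2 ∣ T γ - γ

variable {T}

lemma Unip.step (h : Unip T γ) {j : ℕ} {x : A} (hx : γ ^ j ∣ x) : γ ^ (j + 1) ∣ T x - x := by
  obtain ⟨y, rfl⟩ := hx
  obtain ⟨c, hc⟩ := h.gen
  have e : T γ = γ * (1 + γ * c) := by linear_combination hc
  have h1 : γ ∣ (1 + γ * c) ^ j - 1 := by
    simpa using (show γ ∣ 1 + γ * c - 1 by simp).trans (sub_dvd_pow_sub_pow (1 + γ * c) 1 j)
  rw [map_mul, map_pow, e, mul_pow, mul_assoc, ← mul_sub, pow_succ]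
  refine mul_dvd_mul_left _ ?_
  convert (h1.mul_right (T y)).add (h.sub y) using 1
  ring

/-- The difference operator. -/
def dif (T : A →+* A) : AddMonoid.End A := (show AddMonoid.End A from T.toAddMonoidHom) - 1

lemma dif_apply (x : A) : dif T x = T x - x := rfl

lemma Unip.pow (h : Unip T γ) (x : A) (k : ℕ) : γ ^ k ∣ (dif T ^ k) x := by
  induction k with
  | zero => simp
  | succ k ih => rw [pow_succ' (dif T), AddMonoid.End.coe_mul]; exact h.step ih

lemma iter_eq (x : A) (n : ℕ) :
    T^[n] x = ∑ k ∈ Finset.range (n + 1), (n.choose k : A) * (dif T ^ k) x := by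
  have h1 : ∀ n : ℕ, ((dif T + 1) ^ n) x = T^[n] x := fun n => by
    induction n with
    | zero => simp
    | succ n ih =>
      rw [pow_succ', AddMonoid.End.coe_mul, Function.comp_apply, ih, Function.iterate_succ_apply']
      change T _ - _ + _ = _
      exact sub_add_cancel _ _
  rw [← h1, (Commute.one_right (dif T)).add_pow]
  have h2 : ∀ (s : Finset ℕ) (f : ℕ → AddMonoid.End A), (∑ k ∈ s, f k) x = ∑ k ∈ s, f k x :=
    fun s f => by
      induction s using Finset.induction_on with
      | empty => rfl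
      | insert j s hj ih => rw [Finset.sum_insert hj, Finset.sum_insert hj, ← ih]; rfl
  rw [h2]
  refine Finset.sum_congr rfl fun k _ => ?_
  rw [one_pow, mul_one, AddMonoid.End.coe_mul, Function.comp_apply, AddMonoid.End.natCast_apply,
    map_nsmul, nsmul_eq_mul]

variable [Algebra ℚ A]

/-- Interpolation of the iterates. -/
lemma Unip.interp (h : Unip T γ) {N : ℕ} (hN : γ ^ N = 0) (x : A) :
    ∃ f : A[X], (∀ n : ℕ, f.eval (n : A) = T^[n] x) ∧ ∀ i, γ ^ i ∣ f.coeff i := by
  refine ⟨∑ k ∈ Finset.range N, bp A k * C ((dif T ^ k) x), fun n => ?_, fun i => ?_⟩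
  · rw [iter_eq, eval_finsetSum]
    simp only [eval_mul, eval_C, bp_eval]
    rw [Finset.sum_subset (Finset.range_mono (le_max_left N (n + 1))),
      Finset.sum_subset (Finset.range_mono (le_max_right N (n + 1)))]
    · intro k _ hk
      rw [Nat.choose_eq_zero_of_lt (by simpa using hk)]; simp
    · intro k _ hk
      obtain ⟨y, hy⟩ := (pow_dvd_pow γ (show N ≤ k by simpa using hk)).trans (h.pow x k)
      rw [hy, hN]; simp
  · rw [finsetSum_coeff]
    refine Finset.dvd_sum fun k _ => ?_
    rw [coeff_mul_C]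
    rcases lt_or_ge k i with hk | hk
    · rw [bp_coeff hk]; simp
    · exact ((pow_dvd_pow γ hk).trans (h.pow x k)).mul_left _

/-- A factor of an invariant product is invariant up to high order. -/
theorem Unip.factor (h : Unip T γ) {M r : ℕ} (hN : γ ^ (M * (r + 1)) = 0) {P Q : A}
    (hPQ : T (P * Q) = P * Q)
    (AR : ∀ n x, n + r ≤ M * (r + 1) → x * Q ∈ Ideal.span {P, γ ^ (n + r)} →
      x ∈ Ideal.span {P, γ ^ n}) : T P ∈ Ideal.span {P, γ ^ M} := by
  obtain ⟨f, f1, f2⟩ := h.interp hN P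
  obtain ⟨g, g1, -⟩ := h.interp hN Q
  have hm : ∀ {a b : ℕ}, a ≤ b → Ideal.span {P, γ ^ b} ≤ Ideal.span {P, γ ^ a} := fun hab =>
    Ideal.span_le.2 (Set.insert_subset_iff.2 ⟨Ideal.subset_span (by simp),
      Set.singleton_subset_iff.2 (Ideal.mem_span_pair.2
        ((pow_dvd_pow γ hab).elim fun y hy => ⟨0, y, by rw [hy]; ring⟩))⟩)
  have e : f * g - C (P * Q) = 0 := poly_zero _ _ 0 le_rfl fun n _ => by
    rw [eval_sub, eval_mul, f1, g1, eval_C, ← iterate_map_mul, Function.iterate_fixed hPQ,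
      sub_self]
  have f0 : f.coeff 0 = P := by simpa [coeff_zero_eq_eval_zero] using f1 0
  have g0 : g.coeff 0 = Q := by simpa [coeff_zero_eq_eval_zero] using g1 0
  have key : ∀ i, f.coeff i ∈ Ideal.span {P, γ ^ (M * (r + 1) - i * r)} := fun i => by
    induction i using Nat.strong_induction_on with
    | _ i ih =>
    rcases i with _ | i
    · rw [f0]; exact Ideal.subset_span (by simp)
    rcases Nat.eq_zero_or_pos (M * (r + 1) - (i + 1) * r) with h0 | h0
    · rw [h0]; exact Ideal.mem_span_pair.2 ⟨0, f.coeff (i + 1), by ring⟩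
    have h1 := congrArg (fun p => p.coeff (i + 1)) e
    simp only [coeff_sub, coeff_C_succ, sub_zero, coeff_zero, coeff_mul,
      Finset.Nat.sum_antidiagonal_eq_sum_range_succ_mk, Finset.sum_range_succ (n := i + 1),
      Nat.sub_self, g0] at h1
    have h2 : (i + 1) * r = i * r + r := by ring
    refine AR _ _ (by omega) ?_
    rw [eq_neg_of_add_eq_zero_right h1]
    refine neg_mem (sum_mem fun j hj => Ideal.mul_mem_right _ _ (hm ?_ (ih j (by simpa using hj))))
    have : j * r ≤ i * r := Nat.mul_le_mul_right _ (by simpa [Nat.lt_succ_iff] using hj)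
    omega
  have h1 := f1 1
  rw [Nat.cast_one, Function.iterate_one, eval_eq_sum_range] at h1
  rw [← h1]
  refine sum_mem fun i _ => Ideal.mul_mem_right _ _ ?_
  rcases le_total i M with hi | hi
  · refine hm ?_ (key i)
    have : i * r ≤ M * r := Nat.mul_le_mul_right _ hi
    have : M * (r + 1) = M * r + M := by ring
    omega
  · obtain ⟨y, hy⟩ := (pow_dvd_pow γ hi).trans (f2 i)
    exact Ideal.mem_span_pair.2 ⟨0, y, by rw [hy]; ring⟩

end Unip

section Noeth

variable {O : Type*} [CommRing O] [IsNoetherianRing O]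

/-- Cancellation with a bounded loss of order. -/
lemma artin {P Q : O} (g : O) (h : ∀ x, P ∣ x * Q → P ∣ x) :
    ∃ r, ∀ n x, x * Q ∈ Ideal.span {P, g ^ (n + r)} → x ∈ Ideal.span {P, g ^ n} := by
  let I : ℕ →o Ideal O := ⟨fun j => (Ideal.span {P, Q}).colon {g ^ j},
    monotone_nat_of_le_succ fun j y hy => by
      rw [Submodule.mem_colon_singleton] at hy ⊢
      rw [pow_succ, smul_eq_mul, ← mul_assoc]
      exact Ideal.mul_mem_right _ _ hy⟩
  obtain ⟨r, hr⟩ := monotone_stabilizes_iff_noetherian.2 (inferInstance : IsNoetherian O O) I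
  refine ⟨r, fun n x hx => ?_⟩
  obtain ⟨a, y, hy⟩ := Ideal.mem_span_pair.1 hx
  have h1 : y ∈ I (n + r) := Submodule.mem_colon_singleton.2
    (Ideal.mem_span_pair.2 ⟨-a, x, by rw [smul_eq_mul]; linear_combination -hy⟩)
  rw [← hr _ (by omega)] at h1
  obtain ⟨c, z, hz⟩ := Ideal.mem_span_pair.1 (Submodule.mem_colon_singleton.1 h1)
  rw [smul_eq_mul] at hz
  obtain ⟨b, hb⟩ := h (x - g ^ n * z) ⟨a + g ^ n * c, by
    rw [pow_add] at hy; linear_combination -hy - g ^ n * hz⟩
  exact Ideal.mem_span_pair.2 ⟨b, z, by linear_combination -hb⟩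

/-- Principal ideals of a local ring are closed. -/
lemma krull [IsLocalRing O] {I : Ideal O} {g x : O} (hg : ¬IsUnit g)
    (h : ∀ M, x ∈ I ⊔ Ideal.span {g ^ M}) : x ∈ I := by
  by_cases hI : I = ⊤
  · simp [hI]
  have := Ideal.Quotient.nontrivial_iff.2 hI
  have := IsLocalRing.of_surjective' (Ideal.Quotient.mk I) Ideal.Quotient.mk_surjective
  have h1 : Ideal.span {Ideal.Quotient.mk I g} ≠ ⊤ := by
    rw [Ne, Ideal.span_singleton_eq_top]
    intro hu
    obtain ⟨y, hy⟩ := hu.exists_right_inv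
    obtain ⟨y, rfl⟩ := Ideal.Quotient.mk_surjective y
    rw [← map_mul, ← map_one (Ideal.Quotient.mk I), Ideal.Quotient.eq] at hy
    have h2 := IsLocalRing.le_maximalIdeal hI hy
    have h3 : g * y ∈ IsLocalRing.maximalIdeal O := Ideal.mul_mem_right _ _ hg
    exact (IsLocalRing.maximalIdeal.isMaximal O).ne_top
      ((Ideal.eq_top_iff_one _).2 (by simpa using sub_mem h3 h2))
  rw [← Ideal.Quotient.eq_zero_iff_mem, ← Ideal.mem_bot,
    ← Ideal.iInf_pow_eq_bot_of_isLocalRing _ h1, Ideal.mem_iInf]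
  intro M
  obtain ⟨a, ha, b, hb, rfl⟩ := Submodule.mem_sup.1 (h M)
  obtain ⟨c, rfl⟩ := Ideal.mem_span_singleton'.1 hb
  rw [map_add, Ideal.Quotient.eq_zero_iff_mem.2 ha, zero_add, Ideal.span_singleton_pow, map_mul,
    map_pow]
  exact Ideal.mem_span_singleton'.2 ⟨_, rfl⟩

end Noeth

end Pool.Agent.MP_249f74_an.H40
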